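import Pool.Agent.RSM2.Main
import Pool.Agent.RSM2.H2

/-!
# Rectilinear slit maps: countably connected domains, and good points elsewhere

`E` is a compact subset of the plane with connected complement (the domain is `Eᶜ ∪ {∞}`), `θ` is a
continuous function on `E`, constant on the components of `E`.  `F ⊆ E` is a closed union of
countably many components of `E`, on which nothing more is assumed (`F = E` if `E` has countably
many components).  Every point `ζ` of `E \ F` is good: the radii `ρ < 1` for which the variation of
`θ` on the intersection of the circle `|z - ζ| = ρ` with the non-degenerate components of `E` is at most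
`η` have infinite `dρ/ρ`-measure, for every `η > 0` (`GoodAt`); this holds if near `ζ` the function `θ` is
Lipschitz on `E`, or is on `E` a pointwise limit of `C¹` functions with bounded Dirichlet integrals
(`EnergyAt`).  Then there is a rectilinear slit map of the domain which realises `θ`.
-/

open Set Metric
open scoped NNReal

namespace Pool.Agent.Results.MP_373296_an.CountablyConnected

theorem result (E : Set ℂ) (hE : IsCompact E) (hc : IsConnected Eᶜ) (θ : ℂ → ℝ)
    (hθ : ContinuousOn θ E)
    (hconst : ∀ x ∈ E, ∀ y ∈ connectedComponentIn E x, θ y = θ x)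
    (F S : Set ℂ) (hF : IsClosed F) (hFE : F ⊆ E) (hS : S.Countable)
    (hFS : F = ⋃ x ∈ S, connectedComponentIn E x)
    (hgood : ∀ ζ ∈ E \ F, RSM2.GoodAt E θ ζ ∨ RSM2.EnergyAt E θ ζ ∨
      ∃ r > 0, ∃ K : ℝ≥0, LipschitzOnWith K θ (E ∩ ball ζ r)) :
    ∃ f : ℂ → ℂ, RSM.IsSlitMap E θ f := by
  refine RSM2.exists_slit_map hE hc hθ hconst hF hFE hS hFS fun ζ hζ => ?_
  rcases hgood ζ hζ with h | h | ⟨r, hr, K, hK⟩
  · exact h
  · exact h.goodAt
  · exact (RSM2.energyAt_of_lipschitz hr hK).goodAt

end Pool.Agent.Results.MP_373296_an.CountablyConnected
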